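import Mathlib
import Pool.Agent.R246.SK.Defs

/-! # SK-MIN: a representative of the conformal class with minimal mean -/

open scoped ContDiff ComplexConjugate
open Filter MeasureTheory Set Topology

namespace Pool.Agent.R335.SK

open Pool.Agent.R246.SK

noncomputable section

theorem norm_ee (n : ℤ) (t : ℝ) : ‖ee n t‖ = 1 := by
  unfold ee
  rw [Complex.norm_exp]
  simp

theorem cont_ee (n : ℤ) : Continuous (ee n) := by
  unfold ee
  fun_prop

theorem G_ne (w z : ℂ) (hw : ‖w‖ < 1) (hz : ‖z‖ = 1) : 1 - conj w * z ≠ 0 := by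
  intro h
  have h1 : conj w * z = 1 := (sub_eq_zero.1 h).symm
  have h2 : ‖conj w * z‖ = 1 := by rw [h1]; simp
  rw [norm_mul, hz, mul_one, Complex.norm_conj] at h2
  linarith

theorem dPw (w₀ h z : ℂ) (x : ℝ) (hw : ‖w₀ + x * h‖ < 1) (hz : ‖z‖ = 1) :
    HasDerivAt (fun x : ℝ => ((1 - ‖w₀ + x * h‖ ^ 2) / ‖1 - conj (w₀ + x * h) * z‖ ^ 2) ^ 2)
      (4 / (1 - ‖w₀ + x * h‖ ^ 2) *
        ((1 - ‖w₀ + x * h‖ ^ 2) / ‖1 - conj (w₀ + x * h) * z‖ ^ 2) ^ 2 *
        (conj h * ((z - (w₀ + x * h)) / (1 - conj (w₀ + x * h) * z))).re) x := by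
  have hx : HasDerivAt (fun x : ℝ => (x : ℂ)) 1 x := HasDerivAt.ofReal_comp (hasDerivAt_id x)
  have hg : HasDerivAt (fun x : ℝ => w₀ + (x : ℂ) * h) h x := by
    simpa using (hx.mul_const h).const_add w₀
  have hG : HasDerivAt (fun x : ℝ => 1 - conj (w₀ + (x : ℂ) * h) * z) (-(conj h * z)) x := by
    have h1 : HasDerivAt (fun x : ℝ => 1 - (conj w₀ + (x : ℂ) * conj h) * z) (-(conj h * z)) x := by
      simpa using (((hx.mul_const (conj h)).const_add (conj w₀)).mul_const z).const_sub 1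
    convert h1 using 3
    simp
  have hN := (hg.norm_sq).const_sub 1
  have hD := hG.norm_sq
  set w : ℂ := w₀ + x * h with hwdef
  have hne : 1 - conj w * z ≠ 0 := G_ne w z hw hz
  set G : ℂ := 1 - conj w * z with hGdef
  have hd : ‖G‖ ^ 2 ≠ 0 := by positivity
  have hn : 1 - ‖w‖ ^ 2 ≠ 0 := by
    have : 0 ≤ ‖w‖ := norm_nonneg w
    nlinarith
  have hmain := (hN.div hD hd).pow 2
  refine HasDerivAt.congr_deriv hmain ?_
  have hR : (conj h * ((z - w) / G)).re = (conj h * (z - w) * conj G).re / ‖G‖ ^ 2 := by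
    rw [div_eq_mul_inv, Complex.inv_def, Complex.sq_norm]
    have : conj h * ((z - w) * (conj G * ((Complex.normSq G)⁻¹ : ℝ))) =
        (conj h * (z - w) * conj G) * ((Complex.normSq G)⁻¹ : ℝ) := by ring
    rw [this, Complex.re_mul_ofReal, div_eq_mul_inv]
  have hid : -(2 * inner ℝ w h) * ‖G‖ ^ 2 - (1 - ‖w‖ ^ 2) * (2 * inner ℝ G (-(conj h * z))) =
      2 * (conj h * (z - w) * conj G).re := by
    rw [Complex.sq_norm, Complex.sq_norm, hGdef]
    simp only [Complex.inner, Complex.normSq_apply, Complex.mul_re, Complex.mul_im, Complex.sub_re,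
      Complex.sub_im, Complex.conj_re, Complex.conj_im, Complex.one_re, Complex.one_im,
      Complex.neg_re, Complex.neg_im, map_sub, map_mul, map_one, Complex.conj_conj]
    ring
  rw [hR]
  show _ * ((1 - ‖w‖ ^ 2) / ‖G‖ ^ 2) ^ (2 - 1) *
    ((-(2 * inner ℝ w h) * ‖G‖ ^ 2 - (1 - ‖w‖ ^ 2) * (2 * inner ℝ G (-(conj h * z)))) /
      (‖G‖ ^ 2) ^ 2) = _
  rw [hid]
  generalize (conj h * (z - w) * conj G).re = R at *
  generalize ‖G‖ ^ 2 = d at *
  generalize 1 - ‖w‖ ^ 2 = n at *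
  norm_num
  field_simp
  ring

theorem Pw_nonneg (w : ℂ) (t : ℝ) (hw : ‖w‖ < 1) : 0 ≤ Pw w t := by
  unfold Pw
  have : 0 ≤ ‖w‖ := norm_nonneg w
  apply div_nonneg
  · nlinarith
  · positivity

theorem ee_per (t : ℝ) : ee 1 (t + 2 * Real.pi) = ee 1 t := by
  unfold ee
  have : Complex.I * ((1 : ℤ) : ℂ) * ((t + 2 * Real.pi : ℝ) : ℂ) =
      Complex.I * ((1 : ℤ) : ℂ) * (t : ℂ) + 2 * Real.pi * Complex.I := by
    push_cast
    ring
  rw [this, Complex.exp_periodic]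

theorem Pw_per (w : ℂ) (t : ℝ) : Pw w (t + 2 * Real.pi) = Pw w t := by
  unfold Pw
  rw [ee_per]

theorem Pw_cont (w : ℂ) (hw : ‖w‖ < 1) : Continuous (Pw w) := by
  unfold Pw
  refine Continuous.div continuous_const ?_ fun t => ?_
  · exact ((continuous_const.sub (continuous_const.mul (cont_ee 1))).norm).pow 2
  · have := G_ne w (ee 1 t) hw (norm_ee 1 t)
    positivity

theorem Pw_lower (w : ℂ) (hw : ‖w‖ < 1) (s : ℝ) (hs : 0 ≤ s) (hs1 : s ≤ 1 - ‖w‖) :
    1 / (4 * (1 - ‖w‖)) ≤ Pw w (Complex.arg w + s) := by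
  have h0 : 0 ≤ ‖w‖ := norm_nonneg w
  have hδ : 0 < 1 - ‖w‖ := by linarith
  have h1 : conj w * ee 1 (Complex.arg w + s) = (‖w‖ : ℂ) * Complex.exp (Complex.I * s) := by
    have hw2 : conj w = (‖w‖ : ℂ) * Complex.exp (-(Complex.I * Complex.arg w)) := by
      conv_lhs => rw [← Complex.norm_mul_exp_arg_mul_I w]
      rw [map_mul, Complex.conj_ofReal, ← Complex.exp_conj, map_mul, Complex.conj_I,
        Complex.conj_ofReal]
      congr 2
      ring
    rw [hw2, mul_assoc]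
    congr 1
    unfold ee
    rw [← Complex.exp_add]
    congr 1
    push_cast
    ring
  have h2 : ‖1 - conj w * ee 1 (Complex.arg w + s)‖ ≤ 2 * (1 - ‖w‖) := by
    rw [h1]
    have h3 : (1 : ℂ) - (‖w‖ : ℂ) * Complex.exp (Complex.I * s) =
        ((1 - ‖w‖ : ℝ) : ℂ) - (‖w‖ : ℂ) * (Complex.exp (Complex.I * s) - 1) := by
      push_cast
      ring
    rw [h3]
    have h4 := norm_sub_le ((1 - ‖w‖ : ℝ) : ℂ) ((‖w‖ : ℂ) * (Complex.exp (Complex.I * s) - 1))
    have h5 : ‖Complex.exp (Complex.I * s) - 1‖ ≤ ‖s‖ := Real.norm_exp_I_mul_ofReal_sub_one_le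
    rw [norm_mul, Complex.norm_real, Complex.norm_real, norm_norm, Real.norm_of_nonneg hδ.le] at h4
    rw [Real.norm_of_nonneg hs] at h5
    have h6 : 0 ≤ ‖Complex.exp (Complex.I * s) - 1‖ := norm_nonneg _
    nlinarith
  have h3 : 0 < ‖1 - conj w * ee 1 (Complex.arg w + s)‖ :=
    norm_pos_iff.2 (G_ne w _ hw (norm_ee 1 _))
  unfold Pw
  rw [div_le_div_iff₀ (by positivity) (by positivity)]
  have h4 : ‖1 - conj w * ee 1 (Complex.arg w + s)‖ ^ 2 ≤ (2 * (1 - ‖w‖)) ^ 2 := by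
    gcongr
  nlinarith

/-- the mean -/
def FF (a : ℝ → ℝ) (w : ℂ) : ℝ := ∫ t in (0 : ℝ)..(2 * Real.pi), a t * Pw w t ^ 2

theorem a_min (a : ℝ → ℝ) (ha : PP a) : ∃ m : ℝ, 0 < m ∧ ∀ t, m ≤ a t := by
  have hc : Continuous a := ha.1.continuous
  obtain ⟨x, hx, hmin⟩ := isCompact_Icc.exists_isMinOn (s := Icc (0 : ℝ) (2 * Real.pi))
    ⟨0, by constructor <;> [exact le_rfl; positivity]⟩ hc.continuousOn
  refine ⟨a x, ha.2.2 x, fun t => ?_⟩
  have hp : Function.Periodic a (2 * Real.pi) := ha.2.1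
  obtain ⟨y, hy, hty⟩ := hp.exists_mem_Ico₀ (by positivity) t
  rw [hty]
  exact hmin ⟨hy.1, hy.2.le⟩

theorem F_lower (a : ℝ → ℝ) (ha : PP a) (m : ℝ) (hm : 0 < m) (hma : ∀ t, m ≤ a t) (w : ℂ)
    (hw : ‖w‖ < 1) : m / (16 * (1 - ‖w‖)) ≤ FF a w := by
  have h0 : 0 ≤ ‖w‖ := norm_nonneg w
  have hδ : 0 < 1 - ‖w‖ := by linarith
  have hc : Continuous (fun t => a t * Pw w t ^ 2) := ha.1.continuous.mul ((Pw_cont w hw).pow 2)
  have hp : Function.Periodic (fun t => a t * Pw w t ^ 2) (2 * Real.pi) := by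
    intro t
    show a (t + 2 * Real.pi) * Pw w (t + 2 * Real.pi) ^ 2 = _
    rw [ha.2.1, Pw_per]
  have h1 : FF a w = ∫ t in (Complex.arg w)..(Complex.arg w + 2 * Real.pi),
      a t * Pw w t ^ 2 := by
    have := hp.intervalIntegral_add_eq 0 (Complex.arg w)
    rw [zero_add] at this
    exact this
  have hpi : (1 : ℝ) < 2 * Real.pi := by
    have := Real.pi_gt_three
    linarith
  have h2 : ∫ t in (Complex.arg w)..(Complex.arg w + (1 - ‖w‖)), a t * Pw w t ^ 2 ≤ FF a w := by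
    rw [h1, ← intervalIntegral.integral_add_adjacent_intervals
      (hc.intervalIntegrable (Complex.arg w) (Complex.arg w + (1 - ‖w‖)))
      (hc.intervalIntegrable (Complex.arg w + (1 - ‖w‖)) (Complex.arg w + 2 * Real.pi))]
    have : 0 ≤ ∫ t in (Complex.arg w + (1 - ‖w‖))..(Complex.arg w + 2 * Real.pi),
        a t * Pw w t ^ 2 := by
      apply intervalIntegral.integral_nonneg
      · linarith
      · intro t _
        exact mul_nonneg (ha.2.2 t).le (by positivity)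
    linarith
  refine le_trans ?_ h2
  have h3 : ∫ _t in (Complex.arg w)..(Complex.arg w + (1 - ‖w‖)), m / (16 * (1 - ‖w‖) ^ 2) =
      m / (16 * (1 - ‖w‖)) := by
    rw [intervalIntegral.integral_const, smul_eq_mul]
    field_simp
    ring
  rw [← h3]
  apply intervalIntegral.integral_mono_on (by linarith) (by simp)
    (hc.intervalIntegrable _ _)
  intro t ht
  have h4 := Pw_lower w hw (t - Complex.arg w) (by linarith [ht.1]) (by linarith [ht.2])
  rw [add_sub_cancel] at h4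
  have h5 : (1 / (4 * (1 - ‖w‖))) ^ 2 ≤ Pw w t ^ 2 := by
    gcongr
  have h6 : m / (16 * (1 - ‖w‖) ^ 2) = m * (1 / (4 * (1 - ‖w‖))) ^ 2 := by
    field_simp
    ring
  rw [h6]
  exact mul_le_mul (hma t) h5 (by positivity) (ha.2.2 t).le

theorem F_contOn (a : ℝ → ℝ) (ha : PP a) (r : ℝ) (hr : r < 1) :
    ContinuousOn (FF a) (Metric.closedBall 0 r) := by
  rw [continuousOn_iff_continuous_domRestrict]
  show Continuous fun x : Metric.closedBall (0 : ℂ) r =>
    ∫ t in (0 : ℝ)..(2 * Real.pi), a t * Pw x t ^ 2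
  apply intervalIntegral.continuous_parametric_intervalIntegral_of_continuous'
    (f := fun (x : Metric.closedBall (0 : ℂ) r) (t : ℝ) => a t * Pw x t ^ 2)
  show Continuous fun p : Metric.closedBall (0 : ℂ) r × ℝ => a p.2 * Pw p.1 p.2 ^ 2
  refine (ha.1.continuous.comp continuous_snd).mul (Continuous.pow ?_ 2)
  unfold Pw
  have hc1 : Continuous fun p : Metric.closedBall (0 : ℂ) r × ℝ => (p.1 : ℂ) :=
    continuous_subtype_val.comp continuous_fst
  have hc2 : Continuous fun p : Metric.closedBall (0 : ℂ) r × ℝ => ee 1 p.2 :=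
    (cont_ee 1).comp continuous_snd
  refine Continuous.div (continuous_const.sub (hc1.norm.pow 2)) ?_ fun p => ?_
  · exact ((continuous_const.sub ((Complex.continuous_conj.comp hc1).mul hc2)).norm).pow 2
  · have h1 : ‖(p.1 : ℂ)‖ ≤ r := by
      have := p.1.2
      rwa [mem_closedBall_zero_iff] at this
    have := G_ne p.1 (ee 1 p.2) (by linarith) (norm_ee 1 p.2)
    positivity

theorem F_min (a : ℝ → ℝ) (ha : PP a) : ∃ w₀ : ℂ, ‖w₀‖ < 1 ∧ ∀ w : ℂ, ‖w‖ < 1 →
    FF a w₀ ≤ FF a w := by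
  obtain ⟨m, hm, hma⟩ := a_min a ha
  have hF0 : 0 < FF a 0 := by
    have := F_lower a ha m hm hma 0 (by simp)
    refine lt_of_lt_of_le ?_ this
    simp
    positivity
  set r : ℝ := max 0 (1 - m / (16 * FF a 0)) with hr
  have hr1 : r < 1 := by
    rw [hr]
    apply max_lt (by norm_num)
    have : 0 < m / (16 * FF a 0) := by positivity
    linarith
  have hr0 : 0 ≤ r := le_max_left _ _
  obtain ⟨w₀, hw₀, hmin⟩ := (isCompact_closedBall (0 : ℂ) r).exists_isMinOn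
    ⟨0, by simpa using hr0⟩ (F_contOn a ha r hr1)
  rw [mem_closedBall_zero_iff] at hw₀
  refine ⟨w₀, by linarith, fun w hw => ?_⟩
  by_cases h : ‖w‖ ≤ r
  · exact hmin (by rwa [mem_closedBall_zero_iff])
  · have h1 : FF a w₀ ≤ FF a 0 := hmin (by simpa using hr0)
    refine h1.trans ?_
    have h2 := F_lower a ha m hm hma w hw
    refine le_trans ?_ h2
    push Not at h
    have h3 : 1 - m / (16 * FF a 0) ≤ r := le_max_right _ _
    have h4 : 1 - ‖w‖ ≤ m / (16 * FF a 0) := by linarith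
    rw [le_div_iff₀ (by linarith)]
    rw [le_div_iff₀ (by positivity)] at h4
    linarith

/-- the derivative of the integrand -/
def DF (a : ℝ → ℝ) (w₀ h : ℂ) (x t : ℝ) : ℝ :=
  a t * (4 / (1 - ‖w₀ + x * h‖ ^ 2) * Pw (w₀ + x * h) t ^ 2 *
    (conj h * ((ee 1 t - (w₀ + x * h)) / (1 - conj (w₀ + x * h) * ee 1 t))).re)

theorem DF_cont (a : ℝ → ℝ) (ha : PP a) (w₀ h : ℂ) (S : Set (ℝ × ℝ))
    (hS : ∀ p ∈ S, ‖w₀ + (p.1 : ℂ) * h‖ < 1) :
    ContinuousOn (fun p : ℝ × ℝ => DF a w₀ h p.1 p.2) S := by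
  have hW : Continuous fun p : ℝ × ℝ => w₀ + (p.1 : ℂ) * h := by fun_prop
  have hE : Continuous fun p : ℝ × ℝ => ee 1 p.2 := (cont_ee 1).comp continuous_snd
  have hG : Continuous fun p : ℝ × ℝ => 1 - conj (w₀ + (p.1 : ℂ) * h) * ee 1 p.2 :=
    continuous_const.sub ((Complex.continuous_conj.comp hW).mul hE)
  have hGne : ∀ p ∈ S, 1 - conj (w₀ + (p.1 : ℂ) * h) * ee 1 p.2 ≠ 0 := fun p hp =>
    G_ne _ _ (hS p hp) (norm_ee 1 _)
  have hN : Continuous fun p : ℝ × ℝ => 1 - ‖w₀ + (p.1 : ℂ) * h‖ ^ 2 :=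
    continuous_const.sub (hW.norm.pow 2)
  have hNne : ∀ p ∈ S, 1 - ‖w₀ + (p.1 : ℂ) * h‖ ^ 2 ≠ 0 := fun p hp => by
    have h1 := hS p hp
    have h2 : 0 ≤ ‖w₀ + (p.1 : ℂ) * h‖ := norm_nonneg _
    nlinarith
  unfold DF
  refine (ha.1.continuous.comp continuous_snd).continuousOn.mul ?_
  refine ((continuousOn_const.div hN.continuousOn hNne).mul (ContinuousOn.pow ?_ 2)).mul ?_
  · unfold Pw
    refine hN.continuousOn.div (hG.norm.pow 2).continuousOn fun p hp => ?_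
    have := hGne p hp
    positivity
  · refine Complex.continuous_re.comp_continuousOn (continuousOn_const.mul ?_)
    exact (hE.sub hW).continuousOn.div hG.continuousOn hGne

theorem crit (a : ℝ → ℝ) (ha : PP a) (w₀ : ℂ) (hw₀ : ‖w₀‖ < 1)
    (hmin : ∀ w : ℂ, ‖w‖ < 1 → FF a w₀ ≤ FF a w) (h : ℂ) (hh : ‖h‖ = 1) :
    ∫ t in (0 : ℝ)..(2 * Real.pi), a t * Pw w₀ t ^ 2 *
      (conj h * ((ee 1 t - w₀) / (1 - conj w₀ * ee 1 t))).re = 0 := by
  have h0 : 0 ≤ ‖w₀‖ := norm_nonneg w₀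
  set ρ : ℝ := (1 - ‖w₀‖) / 2 with hρ
  have hρ0 : 0 < ρ := by rw [hρ]; linarith
  have hpi := Real.pi_pos
  have hin : ∀ x : ℝ, |x| ≤ ρ → ‖w₀ + (x : ℂ) * h‖ < 1 := by
    intro x hx
    have h1 := norm_add_le w₀ ((x : ℂ) * h)
    rw [norm_mul, hh, mul_one, Complex.norm_real, Real.norm_eq_abs] at h1
    rw [hρ] at hx
    linarith
  obtain ⟨K, hK⟩ := (isCompact_Icc.prod isCompact_Icc).exists_bound_of_continuousOn
    (DF_cont a ha w₀ h (Icc (-ρ) ρ ×ˢ Icc 0 (2 * Real.pi))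
      fun p hp => hin p.1 (abs_le.2 hp.1))
  have key := intervalIntegral.hasDerivAt_integral_of_dominated_loc_of_deriv_le
    (μ := volume) (a := 0) (b := 2 * Real.pi) (𝕜 := ℝ) (E := ℝ)
    (F := fun x t => a t * Pw (w₀ + x * h) t ^ 2) (F' := DF a w₀ h) (x₀ := 0)
    (s := Metric.ball 0 ρ) (bound := fun _ => K) (Metric.ball_mem_nhds 0 hρ0)
    (by
      filter_upwards [Metric.ball_mem_nhds (0 : ℝ) hρ0] with x hx
      rw [mem_ball_zero_iff, Real.norm_eq_abs] at hx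
      exact (ha.1.continuous.mul ((Pw_cont _ (hin x hx.le)).pow 2)).aestronglyMeasurable)
    ((ha.1.continuous.mul ((Pw_cont _ (hin 0 (by simpa using hρ0.le))).pow 2)).intervalIntegrable _ _)
    (by
      have h1 : Continuous (DF a w₀ h 0) := by
        have h2 := DF_cont a ha w₀ h ({0} ×ˢ univ) fun p hp => hin p.1 (by
          have : p.1 = 0 := hp.1
          rw [this]; simpa using hρ0.le)
        rw [← continuousOn_univ]
        exact h2.comp (f := fun t : ℝ => ((0 : ℝ), t)) (by fun_prop) fun t _ => ⟨rfl, trivial⟩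
      exact h1.aestronglyMeasurable)
    (by
      refine ae_of_all _ fun t ht x hx => ?_
      rw [mem_ball_zero_iff, Real.norm_eq_abs] at hx
      rw [uIoc_of_le (by positivity)] at ht
      exact hK (x, t) ⟨abs_le.1 hx.le, ht.1.le, ht.2⟩)
    (by simp)
    (by
      refine ae_of_all _ fun t _ x hx => ?_
      rw [mem_ball_zero_iff, Real.norm_eq_abs] at hx
      exact (dPw w₀ h (ee 1 t) x (hin x hx.le) (norm_ee 1 t)).const_mul (a t))
  have hloc : IsLocalMin (fun x : ℝ => ∫ t in (0 : ℝ)..(2 * Real.pi),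
      a t * Pw (w₀ + x * h) t ^ 2) 0 := by
    filter_upwards [Metric.ball_mem_nhds (0 : ℝ) hρ0] with x hx
    rw [mem_ball_zero_iff, Real.norm_eq_abs] at hx
    have h1 := hmin _ (hin x hx.le)
    unfold FF at h1
    simpa using h1
  have hz := hloc.hasDerivAt_eq_zero key.2
  have h2 : ∀ t, DF a w₀ h 0 t = 4 / (1 - ‖w₀‖ ^ 2) * (a t * Pw w₀ t ^ 2 *
      (conj h * ((ee 1 t - w₀) / (1 - conj w₀ * ee 1 t))).re) := by
    intro t
    unfold DF
    simp only [Complex.ofReal_zero, zero_mul, add_zero]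
    ring
  simp only [h2] at hz
  rw [intervalIntegral.integral_const_mul] at hz
  rcases mul_eq_zero.1 hz with h3 | h3
  · exfalso
    have h4 : 0 < 1 - ‖w₀‖ ^ 2 := by nlinarith
    have : 0 < 4 / (1 - ‖w₀‖ ^ 2) := by positivity
    linarith
  · exact h3

theorem s_min : S_MIN := by
  intro a ha
  obtain ⟨w, hw, hmin⟩ := F_min a ha
  refine ⟨w, hw, ?_⟩
  have hc : Continuous fun t => ((a t * Pw w t ^ 2 : ℝ) : ℂ) *
      ((ee 1 t - w) / (1 - conj w * ee 1 t)) := by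
    refine (Complex.continuous_ofReal.comp (ha.1.continuous.mul ((Pw_cont w hw).pow 2))).mul ?_
    exact ((cont_ee 1).sub continuous_const).div (continuous_const.sub
      (continuous_const.mul (cont_ee 1))) fun t => G_ne w _ hw (norm_ee 1 t)
  have hi := hc.intervalIntegrable (μ := volume) 0 (2 * Real.pi)
  apply Complex.ext
  · have h1 := Complex.reCLM.intervalIntegral_comp_comm hi
    simp only [Complex.reCLM_apply] at h1
    refine h1.symm.trans (Eq.trans ?_ (crit a ha w hw hmin 1 (by simp)))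
    congr 1
    funext t
    rw [Complex.re_ofReal_mul]
    simp
  · have h1 := Complex.imCLM.intervalIntegral_comp_comm hi
    simp only [Complex.imCLM_apply] at h1
    refine h1.symm.trans (Eq.trans ?_ (crit a ha w hw hmin Complex.I (by simp)))
    congr 1
    funext t
    rw [Complex.im_ofReal_mul]
    congr 1
    simp [Complex.mul_re]

end

end Pool.Agent.R335.SK
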